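import Pool.Agent.helper82.T6.SpecW
import Pool.Agent.helper96.FT.P4

/-! Row WMU of project T6 (MP_16912e_nt). -/

set_option autoImplicit false

namespace Pool.Agent.T6

open Finset Pool.Agent.helper3.FT Pool.Agent.T5

theorem WMU_divisors (y : ℕ) (hy : Squarefree y) : y.divisors.card ≤ 2 ^ y.primeFactors.card := by
  have h1 : y.divisors ⊆ (y.primeFactors.powerset).image (fun s => ∏ p ∈ s, p) := by
    intro d hd
    rw [Nat.mem_divisors] at hd
    rw [Finset.mem_image]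
    refine ⟨d.primeFactors, ?_, ?_⟩
    · rw [Finset.mem_powerset]
      exact Nat.primeFactors_mono hd.1 hd.2
    · exact Nat.prod_primeFactors_of_squarefree (hy.squarefree_of_dvd hd.1)
  calc y.divisors.card ≤ _ := Finset.card_le_card h1
    _ ≤ (y.primeFactors.powerset).card := Finset.card_image_le
    _ = 2 ^ y.primeFactors.card := Finset.card_powerset _

theorem WMU : WMU_stmt := by
  classical
  intro N K Y δ r hN hK hY hδ hδY
  set S := (pairs N K Y).filter (fun p => Nat.Coprime δ (p.1 * p.2) ∧ (δ : ℤ) ∣ (r : ℤ) * p.2 - p.1) with hS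
  have hY0 : Y ≠ 0 := hY.ne_zero
  have hmem : ∀ p ∈ S, 1 ≤ p.1 ∧ p.1 ≤ N ∧ 1 ≤ p.2 ∧ p.2 ≤ K ∧ N < 2 * p.1 ∧ Nat.Coprime p.1 p.2 ∧ Y ∣ p.1 * p.2 ∧
      (δ : ℤ) ∣ (r : ℤ) * p.2 - p.1 := by
    intro p hp
    rw [hS, mem_filter] at hp
    obtain ⟨hp1, -, hp2⟩ := hp
    unfold pairs at hp1
    rw [mem_filter, mem_product, mem_Icc, mem_Icc] at hp1
    obtain ⟨⟨⟨a1, a2⟩, a3, a4⟩, b1, b2, b3, b4⟩ := hp1
    exact ⟨a1, a2, a3, a4, b1, b3, b4, hp2⟩
  have hcov : S ⊆ Y.divisors.biUnion fun a => S.filter fun p => Nat.gcd p.1 Y = a := by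
    intro p hp
    rw [mem_biUnion]
    refine ⟨Nat.gcd p.1 Y, ?_, ?_⟩
    · rw [Nat.mem_divisors]
      exact ⟨Nat.gcd_dvd_right _ _, hY0⟩
    · rw [mem_filter]
      exact ⟨hp, rfl⟩
  have hone : ∀ a ∈ Y.divisors, ((S.filter fun p => Nat.gcd p.1 Y = a).card : ℝ) ≤ 1 + 2 * K * N / ((δ * Y : ℕ) : ℝ) := by
    intro a ha
    rw [Nat.mem_divisors] at ha
    obtain ⟨⟨b, hb⟩, -⟩ := ha
    have hab : Nat.Coprime a b := by
      rw [hb] at hY
      exact Nat.coprime_of_squarefree_mul hY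
    have ha0 : a ≠ 0 := by rintro rfl; simp at hb; exact hY0 hb
    refine family N K (δ * Y) hN (Nat.mul_pos hδ (Nat.pos_of_ne_zero hY0)) _ ?_ ?_
    · intro p hp
      rw [mem_filter] at hp
      obtain ⟨a1, a2, a3, a4, b1, -⟩ := hmem p hp.1
      exact ⟨b1, a2, a3, a4⟩
    · intro p hp q hq hpq
      rw [mem_filter] at hp hq
      obtain ⟨p1, p2, p3, p4, p5, p6, p7, p8⟩ := hmem p hp.1
      obtain ⟨q1, q2, q3, q4, q5, q6, q7, q8⟩ := hmem q hq.1
      have hdiv : ∀ x : ℕ × ℕ, Nat.gcd x.1 Y = a → Y ∣ x.1 * x.2 → a ∣ x.1 ∧ b ∣ x.2 := by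
        intro x hx hx2
        have e1 : a ∣ x.1 := by rw [← hx]; exact Nat.gcd_dvd_left _ _
        refine ⟨e1, ?_⟩
        have e2 : Nat.gcd x.1 b = 1 := by
          have h1 : Nat.gcd x.1 (a * b) = Nat.gcd x.1 a * Nat.gcd x.1 b := Nat.Coprime.gcd_mul _ hab
          rw [← hb, hx, Nat.gcd_eq_right e1] at h1
          have h2 : a * 1 = a * Nat.gcd x.1 b := by rw [mul_one]; exact h1
          exact (Nat.eq_of_mul_eq_mul_left (Nat.pos_of_ne_zero ha0) h2).symm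
        have e3 : b ∣ x.1 * x.2 := (Dvd.intro_left a hb.symm).trans hx2
        exact (Nat.Coprime.symm e2).dvd_of_dvd_mul_left e3
      obtain ⟨pa, pb⟩ := hdiv p hp.2 p7
      obtain ⟨qa, qb⟩ := hdiv q hq.2 q7
      constructor
      · intro h0
        apply hpq
        have h1 : p.1 * q.2 = q.1 * p.2 := by
          have : (p.1 : ℤ) * q.2 = q.1 * p.2 := by linarith
          exact_mod_cast this
        have h2 : p.1 ∣ q.1 := by
          have : p.1 ∣ q.1 * p.2 := Dvd.intro _ h1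
          exact p6.dvd_of_dvd_mul_right this
        have h3 : q.1 ∣ p.1 := by
          have : q.1 ∣ p.1 * q.2 := Dvd.intro _ h1.symm
          exact q6.dvd_of_dvd_mul_right this
        have h4 : p.1 = q.1 := Nat.dvd_antisymm h2 h3
        rw [h4] at h1
        have h5 : q.2 = p.2 := Nat.eq_of_mul_eq_mul_left q1 h1
        exact Prod.ext h4 h5.symm
      · have d1 : (a : ℤ) ∣ (p.1 : ℤ) * q.2 - q.1 * p.2 :=
          dvd_sub (Dvd.dvd.mul_right (Int.natCast_dvd_natCast.2 pa) _) (Dvd.dvd.mul_right (Int.natCast_dvd_natCast.2 qa) _)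
        have d2 : (b : ℤ) ∣ (p.1 : ℤ) * q.2 - q.1 * p.2 :=
          dvd_sub (Dvd.dvd.mul_left (Int.natCast_dvd_natCast.2 qb) _) (Dvd.dvd.mul_left (Int.natCast_dvd_natCast.2 pb) _)
        have d3 : (δ : ℤ) ∣ (p.1 : ℤ) * q.2 - q.1 * p.2 := by
          have e : (p.1 : ℤ) * q.2 - q.1 * p.2 = ((r : ℤ) * q.2 - q.1) * p.2 - ((r : ℤ) * p.2 - p.1) * q.2 := by ring
          rw [e]
          exact dvd_sub (Dvd.dvd.mul_right q8 _) (Dvd.dvd.mul_right p8 _)
        have d4 : ((a * b : ℕ) : ℤ) ∣ (p.1 : ℤ) * q.2 - q.1 * p.2 := by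
          rw [Nat.cast_mul]
          exact IsCoprime.mul_dvd (Nat.isCoprime_iff_coprime.2 hab) d1 d2
        rw [← hb] at d4
        rw [Nat.cast_mul]
        exact IsCoprime.mul_dvd (Nat.isCoprime_iff_coprime.2 hδY) d3 d4
  have hcard : (S.card : ℝ) ≤ ∑ a ∈ Y.divisors, ((S.filter fun p => Nat.gcd p.1 Y = a).card : ℝ) := by
    have h1 : S.card ≤ ∑ a ∈ Y.divisors, (S.filter fun p => Nat.gcd p.1 Y = a).card :=
      (card_le_card hcov).trans card_biUnion_le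
    exact_mod_cast h1
  have hsum : ∑ a ∈ Y.divisors, ((S.filter fun p => Nat.gcd p.1 Y = a).card : ℝ) ≤
      (Y.divisors.card : ℝ) * (1 + 2 * K * N / ((δ * Y : ℕ) : ℝ)) := by
    rw [← nsmul_eq_mul]
    exact Finset.sum_le_card_nsmul _ _ _ hone
  have hpos : (0 : ℝ) ≤ 1 + 2 * K * N / ((δ * Y : ℕ) : ℝ) := by positivity
  have hd : (Y.divisors.card : ℝ) ≤ 2 ^ Y.primeFactors.card := by
    exact_mod_cast WMU_divisors Y hY
  calc (S.card : ℝ) ≤ _ := hcard
    _ ≤ _ := hsum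
    _ ≤ 2 ^ Y.primeFactors.card * (1 + 2 * K * N / ((δ * Y : ℕ) : ℝ)) := mul_le_mul_of_nonneg_right hd hpos
    _ = 2 ^ Y.primeFactors.card * (1 + 2 * N * K / (δ * Y)) := by
      push_cast
      ring
end Pool.Agent.T6
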